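import Mathlib

/-!
# Many unit-perimeter triangles

`u(n) ≥ n^(4/3) / 256` for all `n ≥ 32`.  The points are those of the grid
`{i / (4K²)} × {j / (2K)}` with `0 ≤ i < 4K²`, `0 ≤ j < K`; for `d = j - j' ≠ 0` the isosceles
triangle with apex `(c / (4K²), j / (2K))` and base vertices
`((c ± (K² - d²)) / (4K²), j' / (2K))` has perimeter 1.
-/

set_option autoImplicit false

namespace Pool.Agent.Results.MP_75315a_co.FourThirds

open Finset Filter

/-- The Euclidean plane. -/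
abbrev E2 : Type := EuclideanSpace ℝ (Fin 2)

/-- The perimeter of a 3-element set `T`: half the sum of the distances over all ordered pairs
of elements of `T`. -/
noncomputable def perimeter (T : Finset E2) : ℝ := (∑ x ∈ T, ∑ y ∈ T, dist x y) / 2

open Classical in
/-- The unit-perimeter triangles spanned by `P`: the 3-element subsets `T` of `P` that are not
collinear and have perimeter 1. -/
noncomputable def unitTriangles (P : Finset E2) : Finset (Finset E2) :=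
  (P.powersetCard 3).filter fun T => ¬ Collinear ℝ (T : Set E2) ∧ perimeter T = 1

/-- `u(n)`: the largest number of unit-perimeter triangles spanned by `n` points of the plane. -/
noncomputable def u (n : ℕ) : ℕ :=
  sSup {k | ∃ P : Finset E2, P.card = n ∧ (unitTriangles P).card = k}

lemma card_le_u {n : ℕ} {P : Finset E2} (hP : P.card = n) : (unitTriangles P).card ≤ u n := by
  refine le_csSup ⟨n.choose 3, ?_⟩ ⟨P, hP, rfl⟩
  rintro k ⟨Q, hQ, rfl⟩
  classical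
  unfold unitTriangles
  refine (card_filter_le _ _).trans ?_
  rw [card_powersetCard, hQ]

lemma unitTriangles_mono {P Q : Finset E2} (h : P ⊆ Q) : unitTriangles P ⊆ unitTriangles Q := by
  classical
  unfold unitTriangles
  exact filter_subset_filter _ (powersetCard_mono h)

lemma sum_three {f : E2 → ℝ} {p q r : E2} (hpq : p ≠ q) (hpr : p ≠ r) (hqr : q ≠ r) :
    ∑ x ∈ ({p, q, r} : Finset E2), f x = f p + f q + f r := by
  classical
  rw [sum_insert (by simp only [mem_insert, mem_singleton, not_or]; exact ⟨hpq, hpr⟩),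
    sum_insert (by simp only [mem_singleton]; exact hqr), sum_singleton]
  ring

lemma perimeter_three {p q r : E2} (hpq : p ≠ q) (hpr : p ≠ r) (hqr : q ≠ r) :
    perimeter {p, q, r} = dist p q + dist p r + dist q r := by
  rw [perimeter, sum_three hpq hpr hqr, sum_three hpq hpr hqr, sum_three hpq hpr hqr,
    sum_three hpq hpr hqr, dist_self, dist_self, dist_self, dist_comm q p, dist_comm r p,
    dist_comm r q]
  ring

/-- The points of the grid. -/
noncomputable def pt (K : ℕ) (z : ℤ × ℤ) : E2 :=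
  !₂[(z.1 : ℝ) / (4 * K ^ 2), (z.2 : ℝ) / (2 * K)]

lemma pt_inj {K : ℕ} (hK : 0 < K) : Function.Injective (pt K) := by
  intro z w h
  have hK' : (0 : ℝ) < K := by exact_mod_cast hK
  have h0 := congrArg (fun v : E2 => v 0) h
  have h1 := congrArg (fun v : E2 => v 1) h
  simp only [pt, PiLp.toLp_apply, Matrix.cons_val_zero, Matrix.cons_val_one] at h0 h1
  have e0 : (z.1 : ℝ) = w.1 := by
    field_simp at h0
    linarith
  have e1 : (z.2 : ℝ) = w.2 := by
    field_simp at h1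
    linarith
  exact Prod.ext (by exact_mod_cast e0) (by exact_mod_cast e1)

lemma dist_pt (K : ℕ) (z w : ℤ × ℤ) : dist (pt K z) (pt K w) =
    √(((z.1 : ℝ) / (4 * K ^ 2) - (w.1 : ℝ) / (4 * K ^ 2)) ^ 2 +
      ((z.2 : ℝ) / (2 * K) - (w.2 : ℝ) / (2 * K)) ^ 2) := by
  rw [EuclideanSpace.dist_eq]
  simp [pt, Fin.sum_univ_two, Real.dist_eq, sq_abs]

/-- The integer coordinates of the vertices of a triangle. -/
noncomputable def tri (K : ℕ) (t : ℤ × ℤ × ℤ) : Finset (ℤ × ℤ) :=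
  {(t.1, t.2.1), (t.1 - (K ^ 2 - (t.2.1 - t.2.2) ^ 2), t.2.2),
    (t.1 + (K ^ 2 - (t.2.1 - t.2.2) ^ 2), t.2.2)}

/-- The index set of the triangles. -/
noncomputable def idx (K : ℕ) : Finset (ℤ × ℤ × ℤ) :=
  (Ico ((K : ℤ) ^ 2) (3 * K ^ 2)) ×ˢ (Ico (0 : ℤ) K ×ˢ Ico (0 : ℤ) K).filter fun j => j.1 ≠ j.2

lemma idx_spec {K : ℕ} {t : ℤ × ℤ × ℤ} (h : t ∈ idx K) :
    (K : ℤ) ^ 2 ≤ t.1 ∧ t.1 < 3 * K ^ 2 ∧ 0 ≤ t.2.1 ∧ t.2.1 < K ∧ 0 ≤ t.2.2 ∧ t.2.2 < K ∧
      t.2.1 ≠ t.2.2 := by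
  simp only [idx, mem_product, mem_filter, mem_Ico] at h
  tauto

lemma s_pos {K : ℕ} {t : ℤ × ℤ × ℤ} (h : t ∈ idx K) :
    0 < (K : ℤ) ^ 2 - (t.2.1 - t.2.2) ^ 2 ∧ (K : ℤ) ^ 2 - (t.2.1 - t.2.2) ^ 2 < K ^ 2 := by
  obtain ⟨h1, h2, h3, h4, h5, h6, h7⟩ := idx_spec h
  have h8 : t.2.1 - t.2.2 ≠ 0 := sub_ne_zero.2 h7
  constructor
  · nlinarith
  · have := sq_pos_of_ne_zero h8
    linarith

lemma card_idx (K : ℕ) : (idx K).card = 2 * K ^ 2 * (K * K - K) := by
  have h1 : ((Ico (0 : ℤ) K ×ˢ Ico (0 : ℤ) K).filter fun j => j.1 ≠ j.2).card = K * K - K := by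
    have h2 := card_filter_add_card_filter_not (s := Ico (0 : ℤ) K ×ˢ Ico (0 : ℤ) K)
      (fun j => j.1 = j.2)
    have h3 : ((Ico (0 : ℤ) K ×ˢ Ico (0 : ℤ) K).filter fun j => j.1 = j.2).card = K := by
      have : (Ico (0 : ℤ) K ×ˢ Ico (0 : ℤ) K).filter (fun j => j.1 = j.2) =
          (Ico (0 : ℤ) K).image fun i => (i, i) := by
        ext ⟨a, b⟩
        simp only [mem_filter, mem_product, mem_image, Prod.mk.injEq]
        constructor
        · rintro ⟨⟨h1, h2⟩, h3⟩; exact ⟨a, h1, rfl, h3⟩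
        · rintro ⟨c, h1, rfl, rfl⟩; exact ⟨⟨h1, h1⟩, rfl⟩
      rw [this, card_image_of_injective _ (fun a b h => (Prod.mk.inj h).1)]
      simp
    rw [h3, card_product] at h2
    simp only [Int.card_Ico, sub_zero, Int.toNat_natCast] at h2
    have h4 : (Ico (0 : ℤ) K ×ˢ Ico (0 : ℤ) K).filter (fun j => j.1 ≠ j.2) =
      (Ico (0 : ℤ) K ×ˢ Ico (0 : ℤ) K).filter (fun j => ¬ j.1 = j.2) := rfl
    rw [h4]
    omega
  rw [idx, card_product, h1, Int.card_Ico]
  congr 1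
  have : (3 * (K : ℤ) ^ 2 - K ^ 2) = ((2 * K ^ 2 : ℕ) : ℤ) := by push_cast; ring
  rw [this, Int.toNat_natCast]

lemma tri_injOn (K : ℕ) : Set.InjOn (tri K) (idx K : Set (ℤ × ℤ × ℤ)) := by
  rintro ⟨c, i, j⟩ h ⟨c', i', j'⟩ h' heq
  have hs := s_pos h
  have hs' := s_pos h'
  have h7 := (idx_spec h).2.2.2.2.2.2
  have h7' := (idx_spec h').2.2.2.2.2.2
  simp only at hs hs' h7 h7'
  simp only [tri] at heq
  set s : ℤ := (K : ℤ) ^ 2 - (i - j) ^ 2 with hsd
  set s' : ℤ := (K : ℤ) ^ 2 - (i' - j') ^ 2 with hsd'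
  have m1 : (c, i) ∈ ({(c', i'), (c' - s', j'), (c' + s', j')} : Finset (ℤ × ℤ)) := by
    rw [← heq]; simp
  have m2 : (c - s, j) ∈ ({(c', i'), (c' - s', j'), (c' + s', j')} : Finset (ℤ × ℤ)) := by
    rw [← heq]; simp
  have n1 : (c' - s', j') ∈ ({(c, i), (c - s, j), (c + s, j)} : Finset (ℤ × ℤ)) := by
    rw [heq]; simp
  have n2 : (c' + s', j') ∈ ({(c, i), (c - s, j), (c + s, j)} : Finset (ℤ × ℤ)) := by
    rw [heq]; simp
  simp only [mem_insert, mem_singleton, Prod.mk.injEq] at m1 m2 n1 n2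
  have hc : c = c' ∧ i = i' := by
    rcases m1 with m1 | m1 | m1
    · exact m1
    · exfalso; omega
    · exfalso; omega
  obtain ⟨rfl, rfl⟩ := hc
  have hj : j = j' := by omega
  rw [hj]

/-- The grid. -/
noncomputable def grid (K : ℕ) : Finset E2 :=
  ((Ico (0 : ℤ) (4 * K ^ 2)) ×ˢ (Ico (0 : ℤ) K)).image (pt K)

lemma card_grid {K : ℕ} (hK : 0 < K) : (grid K).card = 4 * K ^ 3 := by
  rw [grid, card_image_of_injective _ (pt_inj hK), card_product, Int.card_Ico, Int.card_Ico]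
  have : (4 * (K : ℤ) ^ 2 - 0) = ((4 * K ^ 2 : ℕ) : ℤ) := by push_cast; ring
  rw [this, Int.toNat_natCast, sub_zero, Int.toNat_natCast]
  ring

lemma tri_mem {K : ℕ} (hK : 0 < K) {t : ℤ × ℤ × ℤ} (h : t ∈ idx K) :
    (tri K t).image (pt K) ∈ unitTriangles (grid K) := by
  classical
  have hs := s_pos h
  obtain ⟨h1, h2, h3, h4, h5, h6, h7⟩ := idx_spec h
  obtain ⟨c, i, j⟩ := t
  simp only at hs h1 h2 h3 h4 h5 h6 h7
  set s : ℤ := (K : ℤ) ^ 2 - (i - j) ^ 2 with hsd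
  have hK' : (0 : ℝ) < K := by exact_mod_cast hK
  have htri : (tri K (c, i, j)).image (pt K) =
      {pt K (c, i), pt K (c - s, j), pt K (c + s, j)} := by
    simp only [tri, image_insert, image_singleton, hsd]
  have hpq : pt K (c, i) ≠ pt K (c - s, j) := fun heq => h7 (Prod.mk.inj (pt_inj hK heq)).2
  have hpr : pt K (c, i) ≠ pt K (c + s, j) := fun heq => h7 (Prod.mk.inj (pt_inj hK heq)).2
  have hqr : pt K (c - s, j) ≠ pt K (c + s, j) := fun heq => by
    have := (Prod.mk.inj (pt_inj hK heq)).1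
    omega
  have hsr : (0 : ℝ) < (s : ℝ) := by exact_mod_cast hs.1
  have hsr' : (s : ℝ) = K ^ 2 - (i - j) ^ 2 := by rw [hsd]; push_cast; ring
  have dqr : dist (pt K (c - s, j)) (pt K (c + s, j)) = 2 * s / (4 * K ^ 2) := by
    rw [dist_pt]
    have : ((((c - s : ℤ) : ℝ)) / (4 * K ^ 2) - (((c + s : ℤ) : ℝ)) / (4 * K ^ 2)) ^ 2 +
        ((j : ℝ) / (2 * K) - (j : ℝ) / (2 * K)) ^ 2 = (2 * s / (4 * K ^ 2)) ^ 2 := by
      push_cast; ring
    simp only
    rw [this, Real.sqrt_sq (by positivity)]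
  have key : ∀ e : ℝ, e ^ 2 = (s : ℝ) ^ 2 → (e / (4 * K ^ 2)) ^ 2 +
      ((i : ℝ) / (2 * K) - (j : ℝ) / (2 * K)) ^ 2 =
      (((K : ℝ) ^ 2 + (i - j) ^ 2) / (4 * K ^ 2)) ^ 2 := by
    intro e he
    rw [div_pow, he, hsr']
    field_simp
    ring
  have dpq : dist (pt K (c, i)) (pt K (c - s, j)) =
      ((K : ℝ) ^ 2 + (i - j) ^ 2) / (4 * K ^ 2) := by
    rw [dist_pt]
    simp only
    have : (c : ℝ) / (4 * K ^ 2) - ((c - s : ℤ) : ℝ) / (4 * K ^ 2) = s / (4 * K ^ 2) := by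
      push_cast; ring
    rw [this, key _ rfl, Real.sqrt_sq (by positivity)]
  have dpr : dist (pt K (c, i)) (pt K (c + s, j)) =
      ((K : ℝ) ^ 2 + (i - j) ^ 2) / (4 * K ^ 2) := by
    rw [dist_pt]
    simp only
    have : (c : ℝ) / (4 * K ^ 2) - ((c + s : ℤ) : ℝ) / (4 * K ^ 2) = (-s) / (4 * K ^ 2) := by
      push_cast; ring
    rw [this, key _ (by ring), Real.sqrt_sq (by positivity)]
  rw [htri, unitTriangles, mem_filter, mem_powersetCard]
  refine ⟨⟨?_, ?_⟩, ?_, ?_⟩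
  · have hmem : ∀ a b : ℤ, 0 ≤ a → a < 4 * K ^ 2 → 0 ≤ b → b < K → pt K (a, b) ∈ grid K := by
      intro a b ha1 ha2 hb1 hb2
      rw [grid]
      refine mem_image_of_mem _ ?_
      simp only [mem_product, mem_Ico]
      exact ⟨⟨ha1, ha2⟩, hb1, hb2⟩
    intro x hx
    simp only [mem_insert, mem_singleton] at hx
    rcases hx with rfl | rfl | rfl
    · exact hmem _ _ (by nlinarith) (by nlinarith) h3 h4
    · exact hmem _ _ (by linarith [hs.2]) (by nlinarith [hs.1]) h5 h6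
    · exact hmem _ _ (by nlinarith [hs.1]) (by linarith [hs.2]) h5 h6
  · exact card_eq_three.2 ⟨_, _, _, hpq, hpr, hqr, rfl⟩
  · intro hcol
    have hq : pt K (c - s, j) ∈
        ((({pt K (c, i), pt K (c - s, j), pt K (c + s, j)} : Finset E2)) : Set E2) := by simp
    obtain ⟨v, hv⟩ := (collinear_iff_of_mem hq).1 hcol
    obtain ⟨t1, ht1⟩ := hv (pt K (c + s, j)) (by simp)
    obtain ⟨t2, ht2⟩ := hv (pt K (c, i)) (by simp)
    have a0 := congrArg (fun w : E2 => w 0) ht1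
    have a1 := congrArg (fun w : E2 => w 1) ht1
    have b1 := congrArg (fun w : E2 => w 1) ht2
    simp only [pt, vadd_eq_add, PiLp.add_apply, PiLp.smul_apply, smul_eq_mul, PiLp.toLp_apply,
      Matrix.cons_val_zero, Matrix.cons_val_one] at a0 a1 b1
    have c1 : t1 * v 1 = 0 := by linarith
    have c2 : t1 ≠ 0 := by
      rintro rfl
      rw [zero_mul, zero_add] at a0
      push_cast at a0
      field_simp at a0
      linarith
    have c3 : v 1 = 0 := (mul_eq_zero.1 c1).resolve_left c2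
    rw [c3, mul_zero, zero_add] at b1
    have c4 : (i : ℝ) = j := by
      field_simp at b1
      exact b1
    exact h7 (by exact_mod_cast c4)
  · rw [perimeter_three hpq hpr hqr, dpq, dpr, dqr, hsr']
    field_simp
    ring

lemma card_unitTriangles {K : ℕ} (hK : 0 < K) :
    2 * K ^ 2 * (K * K - K) ≤ (unitTriangles (grid K)).card := by
  rw [← card_idx]
  refine card_le_card_of_injOn (fun t => (tri K t).image (pt K)) (fun t ht => tri_mem hK ht) ?_
  intro t ht t' ht' heq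
  exact tri_injOn K ht ht' (image_injective (pt_inj hK) heq)

lemma u_ge {n K : ℕ} (hK : 2 ≤ K) (hn : 4 * K ^ 3 ≤ n) : K ^ 4 ≤ u n := by
  obtain ⟨P, hP1, hP2⟩ := Infinite.exists_superset_card_eq (grid K) n
    (by rw [card_grid (by omega)]; exact hn)
  have h1 := card_unitTriangles (K := K) (by omega)
  have h2 := card_le_card (unitTriangles_mono hP1)
  have h3 := card_le_u hP2
  refine le_trans ?_ (h1.trans (h2.trans h3))
  obtain ⟨m, rfl⟩ : ∃ m, K = m + 2 := ⟨K - 2, by omega⟩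
  have h4 : (m + 2) * (m + 2) - (m + 2) = (m + 2) * (m + 1) := by
    have : (m + 2) * (m + 2) = (m + 2) * (m + 1) + (m + 2) := by ring
    omega
  rw [h4]
  nlinarith [sq_nonneg m, Nat.zero_le (m ^ 3), Nat.zero_le (m ^ 4)]

/-- For all `n ≥ 32`, `u(n) ≥ n^(4/3) / 256`. -/
theorem result : ∀ n : ℕ, 32 ≤ n → (1 / 256 : ℝ) * (n : ℝ) ^ (4 / 3 : ℝ) ≤ (u n : ℝ) := by
  intro n hn
  obtain ⟨K, hK1, hK2⟩ : ∃ K : ℕ, 4 * K ^ 3 ≤ n ∧ n < 4 * (K + 1) ^ 3 := by
    have hex : ∃ K : ℕ, n < 4 * (K + 1) ^ 3 := ⟨n, by nlinarith [Nat.zero_le (n ^ 3), Nat.zero_le (n ^ 2)]⟩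
    refine ⟨Nat.find hex, ?_, Nat.find_spec hex⟩
    rcases Nat.eq_zero_or_pos (Nat.find hex) with h | h
    · rw [h]; simp
    · have := Nat.find_min hex (m := Nat.find hex - 1) (by omega)
      rw [Nat.sub_add_cancel h] at this
      omega
  have hK : 2 ≤ K := by
    by_contra hlt
    have : K ≤ 1 := by omega
    have : (K + 1) ^ 3 ≤ 2 ^ 3 := Nat.pow_le_pow_left (by omega) 3
    omega
  have h1 := u_ge hK hK1
  have h2 : n ≤ (4 * K) ^ 3 := by
    have h3 : (K + 1) ^ 3 ≤ (2 * K) ^ 3 := Nat.pow_le_pow_left (by omega) 3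
    have h4 : (2 * K) ^ 3 = 8 * K ^ 3 := by ring
    have h5 : (4 * K) ^ 3 = 64 * K ^ 3 := by ring
    omega
  have h3 : (n : ℝ) ^ (4 / 3 : ℝ) ≤ 256 * (K : ℝ) ^ 4 := by
    have h4 : (n : ℝ) ≤ (4 * K : ℝ) ^ 3 := by exact_mod_cast h2
    calc (n : ℝ) ^ (4 / 3 : ℝ) ≤ ((4 * K : ℝ) ^ 3) ^ (4 / 3 : ℝ) :=
          Real.rpow_le_rpow (Nat.cast_nonneg _) h4 (by norm_num)
      _ = (4 * K : ℝ) ^ 4 := by
          rw [← Real.rpow_natCast, ← Real.rpow_natCast, ← Real.rpow_mul (by positivity)]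
          norm_num
      _ = 256 * (K : ℝ) ^ 4 := by ring
  have h4 : (K : ℝ) ^ 4 ≤ u n := by exact_mod_cast h1
  linarith

end Pool.Agent.Results.MP_75315a_co.FourThirds
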